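import Mathlib
import Pool.Agent.X26.LF.Stm

set_option autoImplicit false

namespace Pool.Agent.X224.LFB.Crt

open Finset Pool.Agent.X26.LF

theorem dvd_prod_of {S : Finset ℕ} (hS : ∀ p ∈ S, p.Prime) {z : ℤ} (h : ∀ p ∈ S, (p : ℤ) ∣ z) :
    ((∏ p ∈ S, p : ℕ) : ℤ) ∣ z := by
  rw [Nat.cast_prod]
  refine Finset.prod_dvd_of_coprime ?_ h
  intro a ha b hb hab
  exact Nat.isCoprime_iff_coprime.2 ((Nat.coprime_primes (hS a ha) (hS b hb)).2 hab)

theorem t_CRT : S_CRT := by
  classical
  intro m u v S A hm hS hcov hfree
  set P : ℕ := ∏ p ∈ S, p with hP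
  have hP0 : 0 < P := Finset.prod_pos fun p hp => (hS p hp).pos
  have hPz : (0 : ℤ) < P := by exact_mod_cast hP0
  set B : Finset ℤ := (Ico (0 : ℤ) P).filter fun x => ∀ p ∈ S, ((x : ℤ) : ZMod p) ∈ A p with hB
  refine ⟨B, ?_, ?_⟩
  · -- covering
    have : NeZero P := ⟨hP0.ne'⟩
    have h1 : (univ : Finset (ZMod P)) ⊆ ((Fintype.piFinset fun _ : Fin m => B).image
      (fun a : Fin m → ℤ => ∑ i, u i * a i)).image (fun z : ℤ => (z : ZMod P)) := by
      intro t _
      have h2 : ∀ p : ℕ, ∃ a : Fin m → ZMod p, p ∈ S → ((∀ i, a i ∈ A p) ∧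
          ∑ i, (u i : ZMod p) * a i = ((t.val : ℕ) : ZMod p)) := by
        intro p
        by_cases hp : p ∈ S
        · obtain ⟨a, ha1, ha2⟩ := hcov p hp ((t.val : ℕ) : ZMod p)
          exact ⟨a, fun _ => ⟨ha1, ha2⟩⟩
        · exact ⟨fun _ => 0, fun h => absurd h hp⟩
      choose a ha using h2
      have h3 : ∀ i : Fin m, ∃ x : ℤ, x ∈ Ico (0 : ℤ) P ∧ ∀ p ∈ S, (x : ZMod p) = a p i := by
        intro i
        have hne : ∀ p ∈ S, (fun q : ℕ => q) p ≠ 0 := fun p hp => (hS p hp).ne_zero
        have hpp : Set.Pairwise (S : Set ℕ) (Function.onFun Nat.Coprime (fun q : ℕ => q)) := by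
          intro p hp q hq hpq
          exact (Nat.coprime_primes (hS p hp) (hS q hq)).2 hpq
        refine ⟨((Nat.chineseRemainderOfFinset (fun p => (a p i).val) (fun q : ℕ => q) S hne hpp : ℕ) : ℤ),
          ?_, ?_⟩
        · rw [mem_Ico]
          refine ⟨Int.natCast_nonneg _, ?_⟩
          exact_mod_cast Nat.chineseRemainderOfFinset_lt_prod (fun p => (a p i).val) (fun q : ℕ => q) hne hpp
        · intro p hp
          have hcr := (Nat.chineseRemainderOfFinset (fun p => (a p i).val) (fun q : ℕ => q) S hne hpp).2 p hp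
          have : NeZero p := ⟨(hS p hp).ne_zero⟩
          have h4 := (ZMod.natCast_eq_natCast_iff _ _ _).2 hcr
          rw [Int.cast_natCast, h4, ZMod.natCast_zmod_val]
      choose x hx1 hx2 using h3
      rw [mem_image]
      refine ⟨∑ i, u i * x i, ?_, ?_⟩
      · rw [mem_image]
        refine ⟨x, ?_, rfl⟩
        rw [Fintype.mem_piFinset]
        intro i
        rw [hB, mem_filter]
        refine ⟨hx1 i, fun p hp => ?_⟩
        rw [hx2 i p hp]
        exact (ha p hp).1 i
      · have h5 : ((∑ i, u i * x i : ℤ) : ZMod P) = (((t.val : ℕ) : ℤ) : ZMod P) := by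
          rw [ZMod.intCast_eq_intCast_iff_dvd_sub]
          apply dvd_prod_of hS
          intro p hp
          rw [← ZMod.intCast_eq_intCast_iff_dvd_sub]
          push_cast
          rw [← (ha p hp).2]
          exact Finset.sum_congr rfl fun i _ => by rw [hx2 i p hp]
        rw [h5, Int.cast_natCast, ZMod.natCast_zmod_val]
    have h6 := Finset.card_le_card h1
    rw [card_univ, ZMod.card] at h6
    exact h6.trans Finset.card_image_le
  · -- missing 1
    set V : ℕ := ∑ i, (v i).natAbs with hV
    set lo : ℤ := ∑ i, min (v i) 0 * P with hlo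
    have h1 : ((Fintype.piFinset fun _ : Fin m => B).image (fun a : Fin m → ℤ => ∑ i, v i * a i)).card ≤
        (range (V + 1) ×ˢ S.pi (fun p => (range p).erase 1)).card := by
      refine Finset.card_le_card_of_injOn (fun y => (((y - lo) / P).toNat, fun p _ => (y % (p : ℤ)).toNat)) ?_ ?_
      · intro y hy
        rw [mem_coe, mem_image] at hy
        obtain ⟨a, ha, rfl⟩ := hy
        rw [Fintype.mem_piFinset] at ha
        have ha' : ∀ i, 0 ≤ a i ∧ a i < P ∧ ∀ p ∈ S, ((a i : ℤ) : ZMod p) ∈ A p := by
          intro i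
          have := ha i
          rw [hB, mem_filter, mem_Ico] at this
          exact ⟨this.1.1, this.1.2, this.2⟩
        rw [mem_coe, mem_product, mem_range, mem_pi]
        refine ⟨?_, ?_⟩
        · have h2 : ∑ i, v i * a i - lo ≤ V * P := by
            rw [hlo, hV, ← Finset.sum_sub_distrib, Nat.cast_sum, Finset.sum_mul]
            refine Finset.sum_le_sum fun i _ => ?_
            obtain ⟨h0, hlt, -⟩ := ha' i
            rcases le_total 0 (v i) with hv | hv
            · rw [min_eq_right hv, Int.natCast_natAbs, abs_of_nonneg hv]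
              nlinarith
            · rw [min_eq_left hv, Int.natCast_natAbs, abs_of_nonpos hv]
              nlinarith
          have h3 : (∑ i, v i * a i - lo) / (P : ℤ) ≤ V := by
            calc (∑ i, v i * a i - lo) / (P : ℤ) ≤ (V * P) / (P : ℤ) := Int.ediv_le_ediv hPz h2
              _ = V := Int.mul_ediv_cancel _ hPz.ne'
          show ((∑ i, v i * a i - lo) / (P : ℤ)).toNat < V + 1
          omega
        · intro p hp
          have hp2 := (hS p hp).two_le
          have hpz : (0 : ℤ) < p := by exact_mod_cast (hS p hp).pos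
          rw [mem_erase, mem_range]
          have h4 := Int.emod_nonneg (∑ i, v i * a i) hpz.ne'
          have h5 := Int.emod_lt_of_pos (∑ i, v i * a i) hpz
          refine ⟨?_, ?_⟩
          · intro h6
            have h7 : (∑ i, v i * a i) % (p : ℤ) = 1 := by
              have h6' : ((∑ i, v i * a i) % (p : ℤ)).toNat = 1 := h6
              omega
            refine hfree p hp univ (fun i => ((a i : ℤ) : ZMod p)) (fun i _ => (ha' i).2.2 p hp) ?_
            have h8 : ((∑ i, v i * a i : ℤ) : ZMod p) = ((1 : ℤ) : ZMod p) := by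
              rw [ZMod.intCast_eq_intCast_iff]
              show (∑ i, v i * a i) % (p : ℤ) = 1 % (p : ℤ)
              rw [h7, Int.emod_eq_of_lt (by norm_num) (by exact_mod_cast hp2)]
            push_cast at h8
            exact h8
          · show ((∑ i, v i * a i) % (p : ℤ)).toNat < p
            omega
      · intro y hy z hz hyz
        have hge : ∀ y ∈ ((Fintype.piFinset fun _ : Fin m => B).image (fun a : Fin m → ℤ => ∑ i, v i * a i)),
            0 ≤ y - lo := by
          intro y hy
          rw [mem_image] at hy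
          obtain ⟨a, ha, rfl⟩ := hy
          rw [Fintype.mem_piFinset] at ha
          rw [hlo, ← Finset.sum_sub_distrib]
          refine Finset.sum_nonneg fun i _ => ?_
          have := ha i
          rw [hB, mem_filter, mem_Ico] at this
          obtain ⟨⟨h0, hlt⟩, -⟩ := this
          rcases le_total 0 (v i) with hv | hv
          · rw [min_eq_right hv]
            nlinarith
          · rw [min_eq_left hv]
            nlinarith
        have hy0 := hge y (mem_coe.1 hy)
        have hz0 := hge z (mem_coe.1 hz)
        simp only [Prod.mk.injEq] at hyz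
        obtain ⟨h1, h2⟩ := hyz
        have hy1 := Int.ediv_nonneg hy0 hPz.le
        have hz1 := Int.ediv_nonneg hz0 hPz.le
        have h3 : (y - lo) / (P : ℤ) = (z - lo) / (P : ℤ) := by omega
        have h4 : (P : ℤ) ∣ y - z := by
          apply dvd_prod_of hS
          intro p hp
          have hpz : (0 : ℤ) < p := by exact_mod_cast (hS p hp).pos
          have h5 := congrFun (congrFun h2 p) hp
          have h6 := Int.emod_nonneg y hpz.ne'
          have h7 := Int.emod_nonneg z hpz.ne'
          have h8 : y % (p : ℤ) = z % (p : ℤ) := by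
            have h5' : (y % (p : ℤ)).toNat = (z % (p : ℤ)).toNat := h5
            omega
          exact Int.dvd_of_emod_eq_zero (Int.emod_eq_emod_iff_emod_sub_eq_zero.1 h8)
        have h5 : (y - lo) % (P : ℤ) = (z - lo) % (P : ℤ) := by
          rw [Int.emod_eq_emod_iff_emod_sub_eq_zero]
          apply Int.emod_eq_zero_of_dvd
          rwa [sub_sub_sub_cancel_right]
        have h6 : y - lo = z - lo := by
          rw [← Int.mul_ediv_add_emod (y - lo) P, ← Int.mul_ediv_add_emod (z - lo) P, h3, h5]
        linarith
    refine h1.trans (le_of_eq ?_)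
    rw [card_product, card_range, card_pi]
    congr 1
    refine Finset.prod_congr rfl fun p hp => ?_
    rw [card_erase_of_mem (mem_range.2 (hS p hp).one_lt), card_range]

end Pool.Agent.X224.LFB.Crt
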